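import Pool.Agent.H41.Fdc6

set_option autoImplicit false
open Pool.Agent.H41.Fdc

namespace Pool.Agent.Results.MP_17e467_an.No

/-- A countable group with finite decomposition complexity and a free amenable action on a compact
Hausdorff space whose transformation groupoid does not have finite dynamical complexity. -/
theorem result : ∃ (Γ : Type) (_ : Group Γ) (_ : Countable Γ) (_ : TopologicalSpace Γ)
    (_ : DiscreteTopology Γ) (X : Type) (_ : TopologicalSpace X) (_ : CompactSpace X)
    (_ : T2Space X) (_ : MulAction Γ X) (_ : ContinuousConstSMul Γ X),
    GroupFDC Γ ∧ (∀ (g : Γ) (x : X), g • x = x → g = 1) ∧ (trans Γ X).Amenable ∧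
      ¬ (trans Γ X).FDC :=
  ⟨Gam, inferInstance, inferInstance, inferInstance, inferInstance, X7, inferInstance,
    inferInstance, inferInstance, inferInstance, inferInstance, group_fdc, free, amenable, not_fdc⟩

end Pool.Agent.Results.MP_17e467_an.No
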